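import Pool.Agent.H47.PF.Stm

/-!
# Project PF: the number of the matrices with a degenerate translate
-/

set_option autoImplicit false

namespace Pool.Agent.H47.PF.Cnt

open Matrix Polynomial

noncomputable section

/-- `1 - ∑_{k ≤ g} (-1)^k C(q,k) / q^k`: the proportion of the monic polynomials of degree `g` with a zero -/
def rho (q g : ℕ) : ℝ := 1 - ∑ k ∈ Finset.range (g + 1), (-1) ^ k * (q.choose k : ℝ) / (q : ℝ) ^ k

/-- `∏_{m < g} (1 - q^(-2m))` -/
def cyc (q g : ℕ) : ℝ := ∏ m ∈ Finset.range (g - 1), (1 - 1 / (q : ℝ) ^ (2 * (m + 1)))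

theorem cyc_nonneg (q g : ℕ) (hq : 1 ≤ q) : 0 ≤ cyc q g := by
  refine Finset.prod_nonneg fun m _ => ?_
  have h1 : (1 : ℝ) ≤ (q : ℝ) ^ (2 * (m + 1)) := one_le_pow₀ (by exact_mod_cast hq)
  have : 1 / (q : ℝ) ^ (2 * (m + 1)) ≤ 1 := by
    rw [div_le_one (by linarith)]
    exact h1
  linarith

section

variable {F : Type} [Field F] [Fintype F]

/-- the zero condition -/
abbrev Root {g : ℕ} (c : Fin g → F) (x : F) : Prop := x ^ g + ∑ j : Fin g, c j * x ^ (j : ℕ) = 0

abbrev Der {g : ℕ} (c : Fin g → F) (x : F) : Prop :=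
  (g : F) * x ^ (g - 1) + ∑ j : Fin g, (j : ℕ) * c j * x ^ ((j : ℕ) - 1) = 0

theorem card_compl {α : Type} [Finite α] (P : α → Prop) :
    Nat.card {a // P a} + Nat.card {a // ¬ P a} = Nat.card α := by
  classical
  have := Fintype.ofFinite α
  rw [Nat.card_eq_fintype_card, Nat.card_eq_fintype_card, Nat.card_eq_fintype_card]
  exact Fintype.card_subtype_compl P ▸ (Nat.add_sub_of_le (Fintype.card_subtype_le P))

theorem card_root (h : S_NOROOT) (g : ℕ) :
    (Nat.card {c : Fin g → F | ∃ x, Root c x} : ℝ) = rho (Fintype.card F) g * (Fintype.card F : ℝ) ^ g := by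
  have h1 := card_compl fun c : Fin g → F => ∃ x, Root c x
  have h2 := h F g
  have hq : (0 : ℝ) < Fintype.card F := by exact_mod_cast Fintype.card_pos
  have h3 : Nat.card {c : Fin g → F // ¬ ∃ x, Root c x} =
      Nat.card {c : Fin g → F // ∀ x : F, x ^ g + ∑ j : Fin g, c j * x ^ (j : ℕ) ≠ 0} := by
    refine Nat.card_congr (Equiv.subtypeEquivRight fun c => ?_)
    push Not
    rfl
  have h4 : (Nat.card (Fin g → F) : ℝ) = (Fintype.card F : ℝ) ^ g := by
    rw [Nat.card_fun, Nat.card_eq_fintype_card, Nat.card_eq_fintype_card, Fintype.card_fin]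
    push_cast
    rfl
  have h5 : (Nat.card {c : Fin g → F // ¬ ∃ x, Root c x} : ℝ) =
      ∑ k ∈ Finset.range (g + 1), (-1) ^ k * (Fintype.card F).choose k * (Fintype.card F : ℝ) ^ (g - k) := by
    rw [h3]
    exact_mod_cast congrArg (Int.cast : ℤ → ℝ) h2
  have h6 : (Nat.card {c : Fin g → F | ∃ x, Root c x} : ℝ) =
      (Fintype.card F : ℝ) ^ g - Nat.card {c : Fin g → F // ¬ ∃ x, Root c x} := by
    rw [← h4, ← h1]
    push_cast
    ring_nf
    rfl
  rw [h6, h5, rho, sub_mul, one_mul, Finset.sum_mul]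
  congr 1
  refine Finset.sum_congr rfl fun k hk => ?_
  have hk' : k ≤ g := Nat.lt_succ_iff.1 (Finset.mem_range.1 hk)
  rw [pow_sub₀ _ hq.ne' hk']
  field_simp

theorem card_simple (h : S_NOROOT) (h' : S_MULT) (g : ℕ) (hg : 1 ≤ g) :
    (rho (Fintype.card F) g - 1 / Fintype.card F) * (Fintype.card F : ℝ) ^ g ≤
      Nat.card {c : Fin g → F | ∃ x, Root c x ∧ ¬ Der c x} := by
  classical
  have h1 := card_root (F := F) h g
  have h2 := h' F g hg
  have hq : (0 : ℝ) < Fintype.card F := by exact_mod_cast Fintype.card_pos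
  have h3 : Nat.card {c : Fin g → F | ∃ x, Root c x} ≤
      Nat.card {c : Fin g → F | ∃ x, Root c x ∧ ¬ Der c x} +
      Nat.card {c : Fin g → F // ∃ x : F, x ^ g + ∑ j : Fin g, c j * x ^ (j : ℕ) = 0 ∧
        (g : F) * x ^ (g - 1) + ∑ j : Fin g, (j : ℕ) * c j * x ^ ((j : ℕ) - 1) = 0} := by
    have e1 : ∀ s : Set (Fin g → F), Nat.card s = s.ncard := fun s => Nat.card_coe_set_eq s
    have e2 : Nat.card {c : Fin g → F // ∃ x : F, x ^ g + ∑ j : Fin g, c j * x ^ (j : ℕ) = 0 ∧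
        (g : F) * x ^ (g - 1) + ∑ j : Fin g, (j : ℕ) * c j * x ^ ((j : ℕ) - 1) = 0} =
        {c : Fin g → F | ∃ x : F, x ^ g + ∑ j : Fin g, c j * x ^ (j : ℕ) = 0 ∧
        (g : F) * x ^ (g - 1) + ∑ j : Fin g, (j : ℕ) * c j * x ^ ((j : ℕ) - 1) = 0}.ncard :=
      Nat.card_coe_set_eq _
    rw [e1, e1, e2]
    refine le_trans (Set.ncard_le_ncard ?_ (Set.toFinite _)) (Set.ncard_union_le _ _)
    rintro c ⟨x, hx⟩
    by_cases hd : Der c x
    · exact Or.inr ⟨x, hx, hd⟩
    · exact Or.inl ⟨x, hx, hd⟩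
  have h4 : (Fintype.card F : ℝ) ^ (g - 1) = 1 / Fintype.card F * (Fintype.card F : ℝ) ^ g := by
    rw [show g = (g - 1) + 1 by omega, pow_succ, Nat.add_sub_cancel]
    field_simp
  have h5 : (Nat.card {c : Fin g → F | ∃ x, Root c x} : ℝ) ≤
      Nat.card {c : Fin g → F | ∃ x, Root c x ∧ ¬ Der c x} + (Fintype.card F : ℝ) ^ (g - 1) := by
    have := h3.trans (Nat.add_le_add_left h2 _)
    exact_mod_cast this
  rw [h1, h4] at h5
  rw [sub_mul]
  linarith

/-- the general counting principle -/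
theorem count (hC : S_CYC) (hL : S_LAST) {I : Type} [Fintype I] [DecidableEq I] (E : Matrix I I F) (g : ℕ)
    (hE : Altn E) (hdet : IsUnit E.det) (hI : Fintype.card I = 2 * g) (hg : 1 ≤ g) (e : I → F) (he : e ≠ 0)
    (P : Set (Fin g → F)) (r : ℝ) (hr : r * (Fintype.card F : ℝ) ^ g ≤ Nat.card P) (hr0 : 0 ≤ r)
    (X : Matrix I I F → Prop)
    (hX : ∀ w, Cyc E e g w → (∃ c ∈ P, chain E e w g = -∑ j : Fin g, c j • chain E e w j) → X w) :
    cyc (Fintype.card F) g * r * Nat.card (Matrix I I F) ≤ Nat.card {w : Matrix I I F // X w} := by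
  have h1 := hC F I E e g hE hdet hI hg he
  have h2 := hL F I E e g hE hdet hI hg P
  have hq : (0 : ℝ) < Fintype.card F := by exact_mod_cast Fintype.card_pos
  rw [Nat.card_eq_fintype_card (α := F)] at h1 h2
  have h3 : Nat.card {w : Matrix I I F // Cyc E e g w ∧
      ∃ c ∈ P, chain E e w g = -∑ j : Fin g, c j • chain E e w j} ≤ Nat.card {w : Matrix I I F // X w} := by
    refine Nat.card_le_card_of_injective (fun w => ⟨w.1, hX w.1 w.2.1 w.2.2⟩) ?_
    intro w w' h
    rw [Subtype.mk.injEq] at h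
    exact Subtype.ext h
  have h4 : (Nat.card P : ℝ) * Nat.card {w : Matrix I I F // Cyc E e g w} ≤
      (Fintype.card F : ℝ) ^ g * Nat.card {w : Matrix I I F // X w} := by
    have := h2.trans (Nat.mul_le_mul_left _ h3)
    exact_mod_cast this
  have h5 : r * (Fintype.card F : ℝ) ^ g * Nat.card {w : Matrix I I F // Cyc E e g w} ≤
      (Fintype.card F : ℝ) ^ g * Nat.card {w : Matrix I I F // X w} :=
    (mul_le_mul_of_nonneg_right hr (Nat.cast_nonneg _)).trans h4
  have h6 : r * Nat.card {w : Matrix I I F // Cyc E e g w} ≤ Nat.card {w : Matrix I I F // X w} := by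
    refine le_of_mul_le_mul_left ?_ (pow_pos hq g)
    calc (Fintype.card F : ℝ) ^ g * (r * Nat.card {w : Matrix I I F // Cyc E e g w})
        = r * (Fintype.card F : ℝ) ^ g * Nat.card {w : Matrix I I F // Cyc E e g w} := by ring
      _ ≤ _ := h5
  calc cyc (Fintype.card F) g * r * Nat.card (Matrix I I F)
      = r * (cyc (Fintype.card F) g * Nat.card (Matrix I I F)) := by ring
    _ ≤ r * Nat.card {w : Matrix I I F // Cyc E e g w} := mul_le_mul_of_nonneg_left h1 hr0
    _ ≤ _ := h6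

end

end

end Pool.Agent.H47.PF.Cnt
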