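import Pool.Agent.H47.PF.Stm

/-! # Project PF: the next vector of the chain (PF-STEP, PF-LAST) -/

set_option autoImplicit false
set_option linter.unusedSectionVars false

namespace Pool.Agent.H47.PF.StepP

open Matrix Polynomial Pool.Agent.H47.PF

open Classical in
lemma card_sub {α : Type} [Fintype α] (p : α → Prop) :
    Nat.card {a // p a} = (Finset.univ.filter p).card := by
  rw [Nat.card_eq_fintype_card, Fintype.card_subtype]

lemma card_iff {α : Type} (p q : α → Prop) (h : ∀ a, p a ↔ q a) :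
    Nat.card {a // p a} = Nat.card {a // q a} :=
  Nat.card_congr (Equiv.subtypeEquivRight h)

lemma card_false {α : Type} (p : α → Prop) (h : ∀ a, ¬ p a) : Nat.card {a // p a} = 0 := by
  have : IsEmpty {a // p a} := ⟨fun a => h a.1 a.2⟩
  exact Nat.card_of_isEmpty

open Classical in
lemma fiberwise {α β : Type} [Fintype α] [Fintype β] (p : α → Prop) (f : α → β) :
    Nat.card {a // p a} = ∑ b : β, Nat.card {a // p a ∧ f a = b} := by
  rw [card_sub, Finset.card_eq_sum_card_fiberwise (f := f) (t := Finset.univ)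
    (fun _ _ => Finset.mem_coe.2 (Finset.mem_univ _))]
  refine Finset.sum_congr rfl fun b _ => ?_
  rw [card_sub, Finset.filter_filter]
  congr 1
  ext a
  simp only [Finset.mem_filter]

section

variable {F : Type} [Field F] [Fintype F] {I : Type} [Fintype I] [DecidableEq I]

lemma fib_count (h1 : S_FIB) (E : Matrix I I F) (e : I → F) (hE : IsUnit E.det) (i : ℕ)
    (τ : Fin (i + 1) → I → F) (hτ : LinearIndependent F τ) (P : Set (I → F))
    (hP : ∀ u ∈ P, ∀ j, τ j ⬝ᵥ (E *ᵥ u) = 0) :
    Nat.card {w : Matrix I I F // (∀ j : Fin (i + 1), chain E e w j = τ j) ∧ chain E e w (i + 1) ∈ P} =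
      Nat.card P * Nat.card {w : Matrix I I F // (∀ j : Fin (i + 1), chain E e w j = τ j) ∧
        chain E e w (i + 1) = 0} := by
  classical
  rw [fiberwise (β := I → F) _ (fun w => chain E e w (i + 1))]
  have h3 : ∀ u : I → F, Nat.card {w : Matrix I I F // ((∀ j : Fin (i + 1), chain E e w j = τ j) ∧
      chain E e w (i + 1) ∈ P) ∧ chain E e w (i + 1) = u} =
      if u ∈ P then Nat.card {w : Matrix I I F // (∀ j : Fin (i + 1), chain E e w j = τ j) ∧
        chain E e w (i + 1) = 0} else 0 := by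
    intro u
    split_ifs with hu
    · rw [← h1 F I E e hE i τ u 0 hτ (hP u hu) (fun j => by simp)]
      refine card_iff _ _ fun w => ?_
      constructor
      · rintro ⟨⟨h3, _⟩, h4⟩
        exact ⟨h3, h4⟩
      · rintro ⟨h3, h4⟩
        exact ⟨⟨h3, by rw [h4]; exact hu⟩, h4⟩
    · refine card_false _ fun w => ?_
      rintro ⟨⟨_, h4⟩, h5⟩
      rw [h5] at h4
      exact hu h4
  rw [Finset.sum_congr rfl fun u _ => h3 u, ← Finset.sum_filter, Finset.sum_const, smul_eq_mul]
  congr 1
  exact (card_sub (fun u : I → F => u ∈ P)).symm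

lemma count (h0 : S_ISO) (h1 : S_FIB) (h2 : S_DIM) (E : Matrix I I F) (e : I → F) (hA : Altn E)
    (hE : IsUnit E.det) (i : ℕ) (τ : Fin (i + 1) → I → F) (hτ : LinearIndependent F τ)
    (P : Set (I → F)) (hP : ∀ u ∈ P, ∀ j, τ j ⬝ᵥ (E *ᵥ u) = 0) :
    Nat.card F ^ (Fintype.card I - (i + 1)) *
      Nat.card {w : Matrix I I F // (∀ j : Fin (i + 1), chain E e w j = τ j) ∧ chain E e w (i + 1) ∈ P} =
    Nat.card P * Nat.card {w : Matrix I I F // ∀ j : Fin (i + 1), chain E e w j = τ j} := by
  have h3 := h2 F I E hE (i + 1) τ hτ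
  have h4 := fib_count h1 E e hE i τ hτ P hP
  have h5 := fib_count h1 E e hE i τ hτ {u | ∀ j, τ j ⬝ᵥ (E *ᵥ u) = 0} (fun u hu => hu)
  have h6 : Nat.card {w : Matrix I I F // (∀ j : Fin (i + 1), chain E e w j = τ j) ∧
      chain E e w (i + 1) ∈ {u | ∀ j, τ j ⬝ᵥ (E *ᵥ u) = 0}} =
      Nat.card {w : Matrix I I F // ∀ j : Fin (i + 1), chain E e w j = τ j} := by
    refine card_iff _ _ fun w => ?_
    constructor
    · exact fun h => h.1
    · intro hw
      refine ⟨hw, fun j => ?_⟩
      rw [← hw j]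
      exact h0 F I E e w hA hE _ _
  rw [h6] at h5
  have h7 : Nat.card ({u | ∀ j, τ j ⬝ᵥ (E *ᵥ u) = 0} : Set (I → F)) =
      Nat.card F ^ (Fintype.card I - (i + 1)) := h3
  rw [h7] at h5
  rw [h4, h5]
  ring

lemma span_sub (h0 : S_ISO) (E : Matrix I I F) (e : I → F) (hA : Altn E)
    (hE : IsUnit E.det) (i : ℕ) (τ : Fin (i + 1) → I → F) (w : Matrix I I F)
    (hw' : ∀ j : Fin (i + 1), chain E e w j = τ j)
    {x : I → F} (hx : x ∈ Submodule.span F (Set.range τ)) (j : Fin (i + 1)) :
    τ j ⬝ᵥ (E *ᵥ x) = 0 := by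
  induction hx using Submodule.span_induction with
  | mem x hx =>
    obtain ⟨k, rfl⟩ := hx
    rw [← hw' j, ← hw' k]
    exact h0 F I E e w hA hE _ _
  | zero => simp
  | add x y _ _ hx hy => rw [Matrix.mulVec_add, dotProduct_add, hx, hy, add_zero]
  | smul a x _ hx => rw [Matrix.mulVec_smul, dotProduct_smul, hx, smul_zero]

lemma cyc_fib (E : Matrix I I F) (e : I → F) (i : ℕ) (τ : Fin (i + 1) → I → F)
    (hτ : LinearIndependent F τ) (w : Matrix I I F) :
    (Cyc E e (i + 1) w ∧ (fun j : Fin (i + 1) => chain E e w j) = τ) ↔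
      ∀ j : Fin (i + 1), chain E e w j = τ j := by
  constructor
  · rintro ⟨_, h4⟩ j
    exact congrFun h4 j
  · intro h4
    have h5 : (fun j : Fin (i + 1) => chain E e w j) = τ := funext h4
    refine ⟨?_, h5⟩
    unfold Cyc
    rw [h5]
    exact hτ

lemma cyc_succ (E : Matrix I I F) (e : I → F) (i : ℕ) (τ : Fin (i + 1) → I → F)
    (hτ : LinearIndependent F τ) (w : Matrix I I F) (h5 : (fun j : Fin (i + 1) => chain E e w j) = τ) :
    Cyc E e (i + 2) w ↔ chain E e w (i + 1) ∉ Submodule.span F (Set.range τ) := by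
  have h6 : Cyc E e (i + 2) w ↔
      LinearIndependent F (fun j : Fin (i + 1) => chain E e w j) ∧
        chain E e w (i + 1) ∉ Submodule.span F (Set.range (fun j : Fin (i + 1) => chain E e w j)) := by
    unfold Cyc
    rw [linearIndependent_finSucc']
    rfl
  rw [h6, h5]
  exact ⟨fun h => h.2, fun h => ⟨hτ, h⟩⟩

end

theorem step (h0 : S_ISO) (h1 : S_FIB) (h2 : S_DIM) : S_STEP := by
  intro F _ _ I _ _ E e g hA hE hI i _
  have : Fintype F := Fintype.ofFinite F
  rw [fiberwise (β := Fin (i + 1) → I → F) (fun w => Cyc E e (i + 1) w ∧ ¬Cyc E e (i + 2) w)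
      (fun w => fun j : Fin (i + 1) => chain E e w j),
    fiberwise (β := Fin (i + 1) → I → F) (fun w => Cyc E e (i + 1) w)
      (fun w => fun j : Fin (i + 1) => chain E e w j), Finset.mul_sum, Finset.mul_sum]
  refine Finset.sum_congr rfl fun τ _ => ?_
  by_cases hτ : LinearIndependent F τ
  · rw [card_iff _ _ (cyc_fib E e i τ hτ)]
    have e2 : Nat.card {w : Matrix I I F // (Cyc E e (i + 1) w ∧ ¬Cyc E e (i + 2) w) ∧
        (fun j : Fin (i + 1) => chain E e w j) = τ} =
        Nat.card {w : Matrix I I F // (∀ j : Fin (i + 1), chain E e w j = τ j) ∧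
          chain E e w (i + 1) ∈ (Submodule.span F (Set.range τ) : Set (I → F))} := by
      refine card_iff _ _ fun w => ?_
      constructor
      · rintro ⟨⟨_, h4⟩, h5⟩
        refine ⟨fun j => congrFun h5 j, ?_⟩
        rw [cyc_succ E e i τ hτ w h5, not_not] at h4
        exact h4
      · rintro ⟨h4, h5⟩
        have h6 := (cyc_fib E e i τ hτ w).2 h4
        refine ⟨⟨h6.1, ?_⟩, h6.2⟩
        rw [cyc_succ E e i τ hτ w h6.2, not_not]
        exact h5
    rw [e2]
    by_cases hS : ∃ w : Matrix I I F, ∀ j : Fin (i + 1), chain E e w j = τ j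
    · obtain ⟨w, hw⟩ := hS
      have h7 := count h0 h1 h2 E e hA hE i τ hτ (Submodule.span F (Set.range τ) : Set (I → F))
        (fun u hu j => span_sub h0 E e hA hE i τ w hw hu j)
      have hcard : Nat.card (Submodule.span F (Set.range τ) : Set (I → F)) = Nat.card F ^ (i + 1) := by
        have h3 : Nat.card (Submodule.span F (Set.range τ)) =
            Nat.card F ^ Module.finrank F (Submodule.span F (Set.range τ)) :=
          Module.natCard_eq_pow_finrank
        rw [finrank_span_eq_card hτ, Fintype.card_fin] at h3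
        exact h3
      rw [hcard, hI] at h7
      rw [show 2 * g - i - 1 = 2 * g - (i + 1) by omega]
      exact h7
    · have hS' : ∀ w : Matrix I I F, ¬ ∀ j : Fin (i + 1), chain E e w j = τ j := fun w hw => hS ⟨w, hw⟩
      rw [card_false _ hS', card_false _ (fun w hw => hS' w hw.1), mul_zero, mul_zero]
  · have hC : ∀ w : Matrix I I F, ¬ (Cyc E e (i + 1) w ∧ (fun j : Fin (i + 1) => chain E e w j) = τ) := by
      rintro w ⟨h4, h5⟩
      unfold Cyc at h4
      rw [h5] at h4
      exact hτ h4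
    rw [card_false _ hC, card_false _ (fun w hw => hC w ⟨hw.1.1, hw.2⟩), mul_zero, mul_zero]

theorem last (h0 : S_ISO) (h1 : S_FIB) (h2 : S_DIM) : S_LAST := by
  intro F _ _ I _ _ E e g hA hE hI hg P
  have : Fintype F := Fintype.ofFinite F
  obtain ⟨i, rfl⟩ : ∃ i, g = i + 1 := ⟨g - 1, by omega⟩
  apply le_of_eq
  rw [fiberwise (β := Fin (i + 1) → I → F) (fun w => Cyc E e (i + 1) w ∧
        ∃ c ∈ P, chain E e w (i + 1) = -∑ j : Fin (i + 1), c j • chain E e w j)
      (fun w => fun j : Fin (i + 1) => chain E e w j),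
    fiberwise (β := Fin (i + 1) → I → F) (fun w => Cyc E e (i + 1) w)
      (fun w => fun j : Fin (i + 1) => chain E e w j), Finset.mul_sum, Finset.mul_sum]
  refine Finset.sum_congr rfl fun τ _ => ?_
  by_cases hτ : LinearIndependent F τ
  · rw [card_iff _ _ (cyc_fib E e i τ hτ)]
    have hinj : Function.Injective (fun c : Fin (i + 1) → F => -∑ j : Fin (i + 1), c j • τ j) := by
      intro c d hcd
      have h3 : ∑ j : Fin (i + 1), c j • τ j = ∑ j : Fin (i + 1), d j • τ j := neg_injective hcd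
      have h4 : ∑ j : Fin (i + 1), (c j - d j) • τ j = 0 := by
        simp only [sub_smul, Finset.sum_sub_distrib, h3, sub_self]
      have h5 := Fintype.linearIndependent_iff.1 hτ (fun j => c j - d j) h4
      funext j
      exact sub_eq_zero.1 (h5 j)
    set Q : Set (I → F) := (fun c : Fin (i + 1) → F => -∑ j : Fin (i + 1), c j • τ j) '' P with hQ
    have hcard : Nat.card Q = Nat.card P := Nat.card_image_of_injective hinj P
    have e2 : Nat.card {w : Matrix I I F // (Cyc E e (i + 1) w ∧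
        ∃ c ∈ P, chain E e w (i + 1) = -∑ j : Fin (i + 1), c j • chain E e w j) ∧
        (fun j : Fin (i + 1) => chain E e w j) = τ} =
        Nat.card {w : Matrix I I F // (∀ j : Fin (i + 1), chain E e w j = τ j) ∧
          chain E e w (i + 1) ∈ Q} := by
      refine card_iff _ _ fun w => ?_
      constructor
      · rintro ⟨⟨_, c, hc, h4⟩, h5⟩
        refine ⟨fun j => congrFun h5 j, c, hc, ?_⟩
        rw [h4]
        simp only [← h5]
      · rintro ⟨h4, c, hc, h5⟩
        have h6 := (cyc_fib E e i τ hτ w).2 h4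
        refine ⟨⟨h6.1, c, hc, ?_⟩, h6.2⟩
        rw [← h5]
        simp only [h4]
    rw [e2]
    by_cases hS : ∃ w : Matrix I I F, ∀ j : Fin (i + 1), chain E e w j = τ j
    · obtain ⟨w, hw⟩ := hS
      have hsub : ∀ u ∈ Q, ∀ j, τ j ⬝ᵥ (E *ᵥ u) = 0 := by
        rintro _ ⟨c, _, rfl⟩
        refine span_sub h0 E e hA hE i τ w hw ?_
        refine Submodule.neg_mem _ (Submodule.sum_mem _ fun j _ => Submodule.smul_mem _ _ ?_)
        exact Submodule.subset_span ⟨j, rfl⟩
      have h7 := count h0 h1 h2 E e hA hE i τ hτ Q hsub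
      rw [hcard, hI, show 2 * (i + 1) - (i + 1) = i + 1 by omega] at h7
      exact h7.symm
    · have hS' : ∀ w : Matrix I I F, ¬ ∀ j : Fin (i + 1), chain E e w j = τ j := fun w hw => hS ⟨w, hw⟩
      rw [card_false _ hS', card_false _ (fun w hw => hS' w hw.1), mul_zero, mul_zero]
  · have hC : ∀ w : Matrix I I F, ¬ (Cyc E e (i + 1) w ∧ (fun j : Fin (i + 1) => chain E e w j) = τ) := by
      rintro w ⟨h4, h5⟩
      unfold Cyc at h4
      rw [h5] at h4
      exact hτ h4
    rw [card_false _ hC, card_false _ (fun w hw => hC w ⟨hw.1.1, hw.2⟩), mul_zero, mul_zero]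

end Pool.Agent.H47.PF.StepP
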