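import Pool.Agent.H47.PF.T.ISO
import Pool.Agent.H47.PF.T.UNI
import Pool.Agent.H47.PF.T.FIB
import Pool.Agent.H47.PF.T.DIM
import Pool.Agent.H47.PF.STEP
import Pool.Agent.H47.PF.T.CYC
import Pool.Agent.H47.PF.T.ROOT
import Pool.Agent.H47.PF.T.SIMPLE
import Pool.Agent.H47.PF.T.NOROOT
import Pool.Agent.H47.PF.T.MULT
import Pool.Agent.H47.PF.T.LIM
import Pool.Agent.H47.PF.T.PRIMES
import Pool.Agent.H47.PF.T.CHEB
import Pool.Agent.H47.PF.Cnt

/-!
# Project PF: the proved statements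
-/

set_option autoImplicit false

namespace Pool.Agent.H47.PF.Fin

open Filter Topology Pool.Agent.H47.PF.Cnt

theorem fib : S_FIB := FIB.main UNI.main
theorem step : S_STEP := StepP.step ISO.main fib DIM.main
theorem cyc : S_CYC := CYC.main step
theorem last : S_LAST := StepP.last ISO.main fib DIM.main
theorem simple : S_SIMPLE := SIMPLE.main ISO.main

noncomputable section

theorem cyc_le_one (q g : ℕ) (hq : 1 ≤ q) : Cnt.cyc q g ≤ 1 := by
  refine Finset.prod_le_one (fun m _ => ?_) fun m _ => ?_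
  · have h1 : (1 : ℝ) ≤ (q : ℝ) ^ (2 * (m + 1)) := one_le_pow₀ (by exact_mod_cast hq)
    have : 1 / (q : ℝ) ^ (2 * (m + 1)) ≤ 1 := by
      rw [div_le_one (by linarith)]
      exact h1
    linarith
  · have : (0 : ℝ) ≤ 1 / (q : ℝ) ^ (2 * (m + 1)) := by positivity
    linarith

theorem lim1 (g : ℕ) : Tendsto (fun q : ℕ => Cnt.cyc q g * (rho q g - 1 / q)) atTop
    (𝓝 (1 - ∑ k ∈ Finset.range (g + 1), (-1) ^ k / (k.factorial : ℝ))) := LIM.main g

theorem lim0 (g : ℕ) : Tendsto (fun q : ℕ => Cnt.cyc q g * rho q g) atTop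
    (𝓝 (1 - ∑ k ∈ Finset.range (g + 1), (-1) ^ k / (k.factorial : ℝ))) := by
  have h1 := lim1 g
  have h2 : Tendsto (fun q : ℕ => Cnt.cyc q g * (1 / (q : ℝ))) atTop (𝓝 0) := by
    have h3 : Tendsto (fun q : ℕ => 1 / (q : ℝ)) atTop (𝓝 0) := tendsto_one_div_atTop_nhds_zero_nat
    refine squeeze_zero' ?_ ?_ h3
    · filter_upwards [eventually_ge_atTop 1] with q hq
      exact mul_nonneg (cyc_nonneg q g hq) (by positivity)
    · filter_upwards [eventually_ge_atTop 1] with q hq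
      exact mul_le_of_le_one_left (by positivity) (cyc_le_one q g hq)
  have h3 := h1.add h2
  rw [add_zero] at h3
  refine h3.congr fun q => ?_
  ring

end

end Pool.Agent.H47.PF.Fin
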