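import Pool.Agent.H47.PF.Fx
import Pool.Agent.H47.PF.Fin

/-!
# Project PF: almost all integral classes
-/

set_option autoImplicit false

namespace Pool.Agent.H47.PF.Al

open Matrix Filter Topology Pool.Agent.H47.PF.Cnt Pool.Agent.H47.PF.Lk Pool.Agent.Y109.PI

noncomputable section

/-- the vectors modulo `p` with a degenerate translate -/
def G (g : ℕ) (w : Fin (2 * g) → Fin (2 * g) → ℤ) (p : ℕ) : Set (Fin (2 * g) × Fin (2 * g) → ZMod p) :=
  {a | ∃ x : ZMod p, ((Matrix.of fun u v => a (u, v)) - (Matrix.of fun u v => a (u, v))ᵀ -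
    x • red p (dif w)).det = 0}

theorem card_G (g : ℕ) (hg : 0 < g) (w : Fin (2 * g) → Fin (2 * g) → ℤ) (p : ℕ) (hp : p.Prime)
    (hdet : ¬ (p : ℤ) ∣ (dif w).det) :
    Cnt.cyc p g * rho p g * (p : ℝ) ^ Fintype.card (Fin (2 * g) × Fin (2 * g)) ≤ Nat.card (G g w p) := by
  haveI : Fact p.Prime := ⟨hp⟩
  haveI : NeZero p := ⟨hp.ne_zero⟩
  have hc : Fintype.card (ZMod p) = p := ZMod.card p
  by_cases hr0 : 0 ≤ rho p g
  swap
  · push Not at hr0
    refine le_trans ?_ (Nat.cast_nonneg _)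
    exact mul_nonpos_of_nonpos_of_nonneg
      (mul_nonpos_of_nonneg_of_nonpos (cyc_nonneg p g hp.one_lt.le) hr0.le) (by positivity)
  have h3 := count (F := ZMod p) Fin.cyc Fin.last (red p (dif w)) g (altn_red p w) (isUnit_det w hdet) (by simp) hg
    _ (e_ne hg) {c : Fin g → ZMod p | ∃ x, Root c x} (rho p g)
    (le_of_eq (by have := card_root (F := ZMod p) NOROOT.main g; rw [hc] at this ⊢; exact this.symm)) hr0
    (fun w' => ∃ x : ZMod p, (w' - w'ᵀ - x • red p (dif w)).det = 0) (by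
      rintro w' hcyc ⟨c, ⟨x, hx⟩, hch⟩
      exact ⟨x, ROOT.main (ZMod p) (Fin (2 * g)) _ _ g w' c x (isUnit_det w hdet) hg hcyc hch hx⟩)
  rw [hc] at h3
  have e1 : (Nat.card (Matrix (Fin (2 * g)) (Fin (2 * g)) (ZMod p)) : ℝ) =
      (p : ℝ) ^ Fintype.card (Fin (2 * g) × Fin (2 * g)) := by
    have : Nat.card (Matrix (Fin (2 * g)) (Fin (2 * g)) (ZMod p)) =
        Nat.card (Fin (2 * g) × Fin (2 * g) → ZMod p) :=
      Nat.card_congr (Equiv.curry (Fin (2 * g)) (Fin (2 * g)) (ZMod p)).symm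
    rw [this, Nat.card_fun, Nat.card_eq_fintype_card, Nat.card_eq_fintype_card, hc]
    push_cast
    rfl
  have e2 : Nat.card {w' : Matrix (Fin (2 * g)) (Fin (2 * g)) (ZMod p) //
      ∃ x : ZMod p, (w' - w'ᵀ - x • red p (dif w)).det = 0} = Nat.card (G g w p) := by
    refine Nat.card_congr (Equiv.subtypeEquiv (Equiv.curry (Fin (2 * g)) (Fin (2 * g)) (ZMod p)).symm fun w' => ?_)
    exact Iff.rfl
  rw [e1, e2] at h3
  exact h3

theorem almost (g : ℕ) (hg : 0 < g) (w : Fin (2 * g) → Fin (2 * g) → ℤ) (hdet : (dif w).det ≠ 0) (ε : ℝ)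
    (hε : 0 < ε) (Good : (Fin (2 * g) → Fin (2 * g) → ℤ) → ℕ → Prop)
    (hGood : ∀ (a : Fin (2 * g) → Fin (2 * g) → ℤ) (p : ℕ), p.Prime →
      (fun i : Fin (2 * g) × Fin (2 * g) => ((a i.1 i.2 : ℤ) : ZMod p)) ∈ G g w p → Good a p) :
    ∃ p₀ : ℕ, ∀ S : Finset ℕ, (∀ p ∈ S, p.Prime ∧ p₀ ≤ p) →
      (Nat.card {a : Fin (2 * g) × Fin (2 * g) → Fin (∏ p ∈ S, p) //
        (Nat.card {p : ℕ // p ∈ S ∧ Good (fun u v => ((a (u, v) : ℕ) : ℤ)) p} : ℝ) <
          (1 - ∑ k ∈ Finset.range (g + 1), (-1) ^ k / (k.factorial : ℝ) - ε) * S.card} : ℝ) *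
        (ε ^ 2 * S.card) ≤ (∏ p ∈ S, (p : ℝ)) ^ ((2 * g) ^ 2) := by
  set L : ℝ := 1 - ∑ k ∈ Finset.range (g + 1), (-1) ^ k / (k.factorial : ℝ) with hL
  obtain ⟨p₁, hp₁⟩ := eventually_atTop.1 ((Fin.lim0 g).eventually_const_le (show L - ε / 2 < L by linarith))
  refine ⟨max p₁ ((dif w).det.natAbs + 1), fun S hS => ?_⟩
  have h1 := CHEB.main S (Fin (2 * g) × Fin (2 * g)) (G g w) (L - ε / 2) (ε / 2) (by linarith)
    (fun p hp => (hS p hp).1) (by
      intro p hp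
      obtain ⟨hp', hpp⟩ := hS p hp
      have h2 : ¬ (p : ℤ) ∣ (dif w).det := by
        intro h
        have h3 := Nat.le_of_dvd (Int.natAbs_pos.2 hdet) (Int.natCast_dvd.1 h)
        have := (le_max_right p₁ ((dif w).det.natAbs + 1)).trans hpp
        omega
      refine le_trans ?_ (card_G g hg w p hp' h2)
      exact mul_le_mul_of_nonneg_right (hp₁ p ((le_max_left _ _).trans hpp)) (by positivity))
  have e1 : Fintype.card (Fin (2 * g) × Fin (2 * g)) = (2 * g) ^ 2 := by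
    rw [Fintype.card_prod, Fintype.card_fin, sq]
  rw [e1] at h1
  refine le_trans ?_ h1
  have e2 : 4 * (ε / 2) ^ 2 * (S.card : ℝ) = ε ^ 2 * S.card := by ring
  rw [e2]
  refine mul_le_mul_of_nonneg_right ?_ (by positivity)
  rw [Nat.cast_le]
  refine Nat.card_le_card_of_injective (fun a => ⟨a.1, lt_of_le_of_lt ?_ (lt_of_lt_of_eq a.2 ?_)⟩) ?_
  · rw [Nat.cast_le]
    haveI : Finite {p : ℕ // p ∈ S ∧ Good (fun u v => ((a.1 (u, v) : ℕ) : ℤ)) p} :=
      Set.Finite.to_subtype (S.finite_toSet.subset fun p hp => hp.1)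
    refine Nat.card_le_card_of_injective (fun p => ⟨p.1, p.2.1, hGood _ _ (hS _ p.2.1).1 ?_⟩) ?_
    · have := p.2.2
      simpa using this
    · intro p p' h
      rw [Subtype.mk.injEq] at h
      exact Subtype.ext h
  · ring
  · intro a a' h
    rw [Subtype.mk.injEq] at h
    exact Subtype.ext h

end

end Pool.Agent.H47.PF.Al
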