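import Pool.Agent.H47.PF.Lk
import Pool.Agent.H47.L.R_pool_sql_team_seeded_3997aac3.Q46.PX.E
import Pool.Agent.H47.L.R_pool_sql_team_seeded_3997aac3.Q46.PX.G

/-!
# Project PF: a fixed integral class
-/

set_option autoImplicit false

namespace Pool.Agent.H47.PF.Fx

open Matrix Polynomial Pool.Agent.H47.PF.Cnt Pool.Agent.H47.PF.Lk
open Pool.Agent.Helper346.Bra Pool.Agent.Helper18.Br Pool.Agent.H552R3.SymBr Pool.Agent.H552R3.SymPred
  Pool.Agent.H552R3.Tsen Pool.Agent.Y109.PI Pool.Agent.Q128.PI Pool.Agent.Helper929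

noncomputable section

universe u

section

variable {k K : Type u} [Field k] [IsAlgClosed k] [Field K] [Algebra k K]

include k in
/-- the class depends only on the alternating matrix modulo `n` -/
theorem congr_n {n : ℕ} (hn : 0 < n) {ζ : K} (hζ : IsPrimitiveRoot ζ n) {I : Type} [Fintype I] [DecidableEq I]
    (z : I → Kˣ) (w w' : I → I → ℤ) (h : ∀ u v, (n : ℤ) ∣ (w u v - w v u) - (w' u v - w' v u)) :
    Q (symHom hn hζ) z w = Q (symHom hn hζ) z w' := by
  let H : Subgroup Kˣ := (Units.map (algebraMap k K).toMonoidHom).range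
  have hneg : (-1 : Kˣ) ∈ H := by
    refine ⟨-1, ?_⟩
    ext
    simp
  have hconst : ∀ a ∈ H, ∀ b, symHom hn hζ a b = 1 := by
    rintro _ ⟨c, rfl⟩ b
    obtain ⟨d, hd⟩ := IsAlgClosed.exists_pow_nat_eq (c : k) hn
    have hd0 : d ≠ 0 := by
      rintro rfl
      rw [zero_pow hn.ne'] at hd
      exact c.ne_zero hd.symm
    have hc : c = (Units.mk0 d hd0) ^ n := by
      ext
      rw [Units.val_pow_eq_pow_val, Units.val_mk0, hd]
    rw [hc, map_pow, map_pow, MonoidHom.pow_apply, symHom_apply, symCl_tors]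
  have hlow : low (symHom hn hζ) H ⊥ z ≤ (⊥ : Subgroup (BrauerGroup.{u, u} K)) := by
    refine sup_le le_rfl ?_
    rw [Subgroup.closure_le]
    rintro γ ⟨a, ha, u, rfl⟩
    rw [hconst a ha]
    exact Subgroup.one_mem _
  have h3 := hlow (Q_congr (s := symHom hn hζ) (fun a b => symCl_anti hn hζ a b) n (fun a b => symCl_tors hn hζ a b)
    (-1) H hneg (fun a => symCl_diag hn hζ a) ⊥ z w w' h)
  rw [Subgroup.mem_bot, mul_inv_eq_one] at h3
  exact h3

include k in
/-- a translate by a relation with a highly divisible Pfaffian has small index -/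
theorem index_of_pf (p m : ℕ) (hp : p.Prime) (hn : 0 < p ^ m) {ζ : K} (hζ : IsPrimitiveRoot ζ (p ^ m)) (g : ℕ)
    (hg : 0 < g) (z : Fin (2 * g) → Kˣ) (w a : Fin (2 * g) → Fin (2 * g) → ℤ)
    (hw : Q (symHom hn hζ) z w = 1) (t P : ℤ) (hdet : (dif a + t • dif w).det = P ^ 2) (hP : (p : ℤ) ^ m ∣ P)
    (hP0 : P ≠ 0) : IndDvd (Q (symHom hn hζ) z a) ((p ^ m) ^ (g - 1)) := by
  let b : Fin (2 * g) → Fin (2 * g) → ℤ := a + t • w
  have hb : dif b = dif a + t • dif w := by
    ext u v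
    simp only [b, dif, Matrix.of_apply, Matrix.add_apply, Pi.add_apply, Pi.smul_apply, Matrix.smul_apply,
      smul_eq_mul]
    ring
  rw [← hb] at hdet
  obtain ⟨e, x, y, hmat, hPd, hd0⟩ := Pool.Agent.Q46.PX.prod_of_det g (by simp) (dif b) (alt_dif _) P hdet hP0
  obtain ⟨l, hl1, hl2, hl3⟩ := Pool.Agent.Q46.PX.exists_mult p hp m g hg e (hP.trans hPd) hd0
  have hQ1 : Q (symHom hn hζ) z a = Q (symHom hn hζ) z b := by
    simp only [b]
    rw [Q_add, Q_smul, hw, _root_.one_zpow, mul_one]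
  have hQ2 : Q (symHom hn hζ) z b = ∏ j, symCl hn hζ (mon z (x j)) (mon z (y j)) ^ e j := by
    have h1 : Q (symHom hn hζ) z (∑ j, e j • fun u v => x j u * y j v) =
        ∏ j, symCl hn hζ (mon z (x j)) (mon z (y j)) ^ e j := by
      rw [Q_sum]
      refine Finset.prod_congr rfl fun j _ => ?_
      rw [Q_smul, ← s_mon]
      rfl
    rw [← h1]
    refine congr_n (k := k) hn hζ z _ _ fun u v => ?_
    have h2 := congrFun (congrFun hmat u) v
    have h3 : (∑ j, e j • fun u v => x j u * y j v : Fin (2 * g) → Fin (2 * g) → ℤ) u v -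
        (∑ j, e j • fun u v => x j u * y j v : Fin (2 * g) → Fin (2 * g) → ℤ) v u = dif b u v := by
      rw [h2]
      simp only [Matrix.sum_apply, Matrix.smul_apply, wdg, Matrix.of_apply, smul_eq_mul, Finset.sum_apply,
        Pi.smul_apply, ← Finset.sum_sub_distrib]
      refine Finset.sum_congr rfl fun j _ => ?_
      ring
    rw [h3]
    simp [dif]
  rw [hQ1, hQ2]
  have h1 := Pool.Agent.Q46.PX.ind_roots hn g (∏ j, l j) hl3 K ζ hζ (fun j => mon z (x j)) (fun j => mon z (y j)) l e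
    rfl hl1
  intro D _ _ _ _ hD
  exact (h1 D hD).trans hl2

include k in
/-- a translate with determinant zero modulo `p` has small index -/
theorem index_of_sing (p : ℕ) [hp : Fact p.Prime] {ζ : K} (hn : 0 < p) (hζ : IsPrimitiveRoot ζ p) (g : ℕ)
    (hg : 0 < g) (z : Fin (2 * g) → Kˣ) (w a : Fin (2 * g) → Fin (2 * g) → ℤ)
    (hw : Q (symHom hn hζ) z w = 1) (A : Matrix (Fin (2 * g)) (Fin (2 * g)) (ZMod p))
    (hA : ∀ u v, A u v = (a u v : ZMod p)) (x : ZMod p) (hx : (A - Aᵀ - x • red p (dif w)).det = 0) :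
    IndDvd (Q (symHom hn hζ) z a) (p ^ (g - 1)) := by
  haveI : NeZero p := ⟨hp.out.ne_zero⟩
  have htors : ∀ a b, symHom hn hζ a b ^ p = 1 := fun a b => symCl_tors hn hζ a b
  have hε : ∀ a, symHom hn hζ (-1) a = 1 := by
    intro a
    obtain ⟨d, hd⟩ := IsAlgClosed.exists_pow_nat_eq (-1 : k) hn
    have hd0 : d ≠ 0 := by
      rintro rfl
      rw [zero_pow hn.ne'] at hd
      exact one_ne_zero (neg_eq_zero.1 hd.symm)
    have hc : (-1 : Kˣ) = (Units.map (algebraMap k K).toMonoidHom (Units.mk0 d hd0)) ^ p := by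
      ext
      rw [Units.val_pow_eq_pow_val, Units.coe_map, Units.val_mk0]
      change -((1 : Kˣ) : K) = (algebraMap k K d) ^ p
      rw [← map_pow, hd]
      simp
    rw [hc, map_pow, MonoidHom.pow_apply, htors]
  have e1 : ((-(x.val : ℤ) : ℤ) : ZMod p) = -x := by
    push_cast
    simp
  have h0 : Q (symHom hn hζ) z (fun u v => (-(x.val : ℤ)) * w u v) = 1 := by
    have : (fun u v => (-(x.val : ℤ)) * w u v) = (-(x.val : ℤ)) • w := by
      funext u v
      simp
    rw [this, Q_smul, hw, _root_.one_zpow]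
  obtain ⟨s, t, hst⟩ := sing_class (s := symHom hn hζ) (fun a b => symCl_anti hn hζ a b) p htors (-1) hε
    (fun a => symCl_diag hn hζ a) g hg (by simp) z A (fun u v => (-(x.val : ℤ)) * w u v) h0 (by
      rw [red_smul, e1, neg_smul, ← sub_eq_add_neg]
      exact hx)
  have h4 : Q (symHom hn hζ) z a = (Psi p htors z A).toMul := by
    rw [Psi_apply]
    refine Q_mod p htors z _ _ fun u v => ?_
    rw [← ZMod.intCast_zmod_eq_zero_iff_dvd, Int.cast_sub, sub_eq_zero, ← hA]
    simp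
  rw [h4, hst]
  exact (hasRep_prod hn hζ (g - 1) s t).indDvd

end

/-- infinitely many primes with highly divisible Pfaffians -/
theorem fixed_inf (hPr : S_PRIMES) (g : ℕ) (hg : 0 < g) (w a : Fin (2 * g) → Fin (2 * g) → ℤ)
    (hdet : (dif w).det ≠ 0) :
    {p : ℕ | p.Prime ∧ ∀ m : ℕ, ∃ t P : ℤ, (dif a + t • dif w).det = P ^ 2 ∧ (p : ℤ) ^ m ∣ P ∧ P ≠ 0}.Infinite := by
  set f : ℤ[X] := pf (2 * g) ((dif a).map C + (X : ℤ[X]) • (dif w).map C) with hf
  have hsq := Pool.Agent.Q46.PX.pf_sq_poly g (dif a) (dif w) (alt_dif a).2 (alt_dif w).2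
  rw [← hf] at hsq
  have hcoef : (f ^ 2).coeff (2 * g) = (dif w).det := by
    rw [hsq, add_comm]
    have := Polynomial.coeff_det_X_add_C_card (dif w) (dif a)
    rw [Fintype.card_fin] at this
    exact this
  have hdeg : 0 < f.natDegree := by
    have h1 : 2 * g ≤ (f ^ 2).natDegree := le_natDegree_of_ne_zero (by rw [hcoef]; exact hdet)
    rw [natDegree_pow] at h1
    omega
  refine (hPr f hdeg).mono ?_
  rintro p ⟨hp, h⟩
  refine ⟨hp, fun m => ?_⟩
  obtain ⟨x, hx, hx0⟩ := h m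
  refine ⟨x, f.eval x, ?_, hx, hx0⟩
  rw [hf, pf_pencil_eval, pf_sq_int]
  intro u v
  rw [Matrix.add_apply, Matrix.add_apply, Matrix.smul_apply, Matrix.smul_apply, (alt_dif a).2 u v,
    (alt_dif w).2 u v]
  simp only [smul_eq_mul]
  ring

end

end Pool.Agent.H47.PF.Fx
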