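import Pool.Agent.H47.PF.Cnt
import Pool.Agent.H47.L.R_pool_sql_team_seeded_2aa45f1a.Q128.PI.PowCls
import Pool.Agent.H47.L.R_pool_sql_team_seeded_2aa45f1a.Q128.PI.Cls

/-!
# Project PF: the number of the classes
-/

set_option autoImplicit false

namespace Pool.Agent.H47.PF.Lk

open Matrix Polynomial Pool.Agent.H47.PF.Cnt
open Pool.Agent.Helper18.Br Pool.Agent.H552R3.SymBr Pool.Agent.H552R3.SymPred Pool.Agent.H552R3.Tsen
  Pool.Agent.Y109.PI Pool.Agent.Q128.PI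

noncomputable section

universe u

theorem altn_red (p : ℕ) {I : Type} (w : I → I → ℤ) : Altn (red p (dif w)) := by
  constructor
  · intro u
    simp [red, dif]
  · intro u v
    simp [red, dif]

theorem dot_self {F : Type} [Field F] {I : Type} [Fintype I] {E : Matrix I I F} (hE : Altn E) (a : I → F) :
    a ⬝ᵥ (E *ᵥ a) = 0 := alt_dot_self (R := F) ⟨hE.1, hE.2⟩ a

theorem indep_of {F : Type} [Field F] {I : Type} [Fintype I] {E : Matrix I I F} (hE : Altn E) (a b : I → F)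
    (h : a ⬝ᵥ (E *ᵥ b) ≠ 0) : Indep a b := by
  by_contra hcon
  unfold Indep at hcon
  push Not at hcon
  by_cases ha : a = 0
  · exact h (by rw [ha, zero_dotProduct])
  · obtain ⟨i, hi⟩ := Function.ne_iff.1 ha
    have hi' : a i ≠ 0 := hi
    have hb : b = (b i / a i) • a := by
      funext j
      rw [Pi.smul_apply, smul_eq_mul, div_mul_eq_mul_div, eq_div_iff hi']
      have := hcon i j
      linear_combination this
    apply h
    rw [hb, Matrix.mulVec_smul, dotProduct_smul, dot_self hE, smul_zero]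

theorem red_smul (p : ℕ) {I : Type} (w : I → I → ℤ) (t : ℤ) :
    red p (dif fun u v => t * w u v) = (t : ZMod p) • red p (dif w) := by
  ext u v
  simp only [red, dif, Matrix.map_apply, Matrix.of_apply, Matrix.smul_apply, smul_eq_mul, eq_intCast]
  push_cast
  ring

/-- the relations used: the multiples of `w` -/
def rels {g : ℕ} (w : Fin (2 * g) → Fin (2 * g) → ℤ) : Set (Fin (2 * g) → Fin (2 * g) → ℤ) :=
  {w' | ∃ t : ℤ, w' = fun u v => t * w u v}

theorem rels_one {B : Type u} [CommGroup B] {g : ℕ} (θ : Fin (2 * g) → Fin (2 * g) → B)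
    (w : Fin (2 * g) → Fin (2 * g) → ℤ) (hw : ∏ u, ∏ v, θ u v ^ w u v = 1) :
    ∀ w' ∈ rels w, ∏ u, ∏ v, θ u v ^ w' u v = 1 := by
  rintro _ ⟨t, rfl⟩
  have h : ∀ u v, θ u v ^ (t * w u v) = (θ u v ^ w u v) ^ t := fun u v => by
    rw [mul_comm, _root_.zpow_mul]
  simp only [h, Finset.prod_zpow, hw, _root_.one_zpow]

theorem e_ne {p g : ℕ} [Fact p.Prime] (hg : 1 ≤ g) :
    (Pi.single (⟨0, by omega⟩ : Fin (2 * g)) 1 : Fin (2 * g) → ZMod p) ≠ 0 := by
  intro h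
  have := congrFun h ⟨0, by omega⟩
  rw [Pi.single_eq_same] at this
  exact one_ne_zero this

theorem isUnit_det {p : ℕ} [Fact p.Prime] {I : Type} [Fintype I] [DecidableEq I] (w : I → I → ℤ)
    (h : ¬ (p : ℤ) ∣ (dif w).det) : IsUnit (red p (dif w)).det := by
  rw [isUnit_iff_ne_zero, ← red_det]
  intro h0
  exact h ((ZMod.intCast_zmod_eq_zero_iff_dvd _ _).1 h0)

/-- the proportion of the classes of prime period -/
theorem prime_case (hN : S_NOROOT) (hC : S_CYC) (hL : S_LAST) (hR : S_ROOT)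
    {k K : Type u} [Field k] [IsAlgClosed k] [Field K] [Algebra k K] (p : ℕ) [hp : Fact p.Prime]
    (ζ : K) (hζ : IsPrimitiveRoot ζ p) (g : ℕ) (hg : 0 < g) (z : Fin (2 * g) → Kˣ)
    (θ : Fin (2 * g) → Fin (2 * g) → BrauerGroup.{u, u} K) (hθ : ∀ u v, IsSym p ζ (z u) (z v) (θ u v))
    (w : Fin (2 * g) → Fin (2 * g) → ℤ) (hw : ∏ u, ∏ v, θ u v ^ w u v = 1)
    (hdet : ¬ (p : ℤ) ∣ (dif w).det)
    (S : Subgroup (BrauerGroup.{u, u} K)) (hS : S = Subgroup.closure {γ | ∃ u v, γ = θ u v}) :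
    Finite S ∧ cyc p g * rho p g * Nat.card S ≤
      Nat.card {α : S // IndDvd (α : BrauerGroup.{u, u} K) (p ^ (g - 1)) ∧
            ∃ (s t : Fin (g - 1) → Kˣ) (σ : Fin (g - 1) → BrauerGroup.{u, u} K),
              (∀ i, IsSym p ζ (s i) (t i) (σ i)) ∧ (α : BrauerGroup.{u, u} K) = ∏ i, σ i} := by
  classical
  haveI : NeZero p := ⟨hp.out.ne_zero⟩
  obtain ⟨h1, h2⟩ := count_classes (k := k) p ζ hζ g hg z θ hθ (rels w) (rels_one θ w hw) S hS
  refine ⟨h1, ?_⟩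
  set E := red p (dif w) with hE
  have hc : Fintype.card (ZMod p) = p := ZMod.card p
  by_cases hr0 : 0 ≤ rho p g
  swap
  · push Not at hr0
    refine le_trans ?_ (Nat.cast_nonneg _)
    exact mul_nonpos_of_nonpos_of_nonneg
      (mul_nonpos_of_nonneg_of_nonpos (cyc_nonneg p g hp.out.one_lt.le) hr0.le) (Nat.cast_nonneg _)
  have h3 := count (F := ZMod p) hC hL E g (altn_red p w) (isUnit_det w hdet) (by simp) hg _ (e_ne hg)
    {c : Fin g → ZMod p | ∃ x, Root c x} (rho p g)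
    (le_of_eq (by have := card_root (F := ZMod p) hN g; rw [hc] at this ⊢; exact this.symm)) hr0
    (fun w' => ∃ w0 ∈ rels w, (al w' + red p (dif w0)).det = 0) (by
      rintro w' hcyc ⟨c, ⟨x, hx⟩, hch⟩
      refine ⟨fun u v => (-(x.val : ℤ)) * w u v, ⟨-(x.val : ℤ), rfl⟩, ?_⟩
      have h4 := hR (ZMod p) (Fin (2 * g)) E _ g w' c x (isUnit_det w hdet) hg hcyc hch hx
      rw [red_smul]
      have e1 : ((-(x.val : ℤ) : ℤ) : ZMod p) = -x := by
        push_cast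
        simp
      rw [e1, neg_smul, ← sub_eq_add_neg]
      exact h4)
  rw [hc] at h3
  have hM : (0 : ℝ) < Nat.card (Matrix (Fin (2 * g)) (Fin (2 * g)) (ZMod p)) := by
    exact_mod_cast Nat.card_pos
  have h5 : (Nat.card S : ℝ) * Nat.card {w' : Matrix (Fin (2 * g)) (Fin (2 * g)) (ZMod p) //
      ∃ w0 ∈ rels w, (al w' + red p (dif w0)).det = 0} ≤
      Nat.card (Matrix (Fin (2 * g)) (Fin (2 * g)) (ZMod p)) *
        Nat.card {α : S // IndDvd (α : BrauerGroup.{u, u} K) (p ^ (g - 1)) ∧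
            ∃ (s t : Fin (g - 1) → Kˣ) (σ : Fin (g - 1) → BrauerGroup.{u, u} K),
              (∀ i, IsSym p ζ (s i) (t i) (σ i)) ∧ (α : BrauerGroup.{u, u} K) = ∏ i, σ i} := by
    rw [← Nat.card_eq_fintype_card] at h2
    exact_mod_cast h2
  refine le_of_mul_le_mul_left ?_ hM
  calc (Nat.card (Matrix (Fin (2 * g)) (Fin (2 * g)) (ZMod p)) : ℝ) * (cyc p g * rho p g * Nat.card S)
      = Nat.card S * (cyc p g * rho p g * Nat.card (Matrix (Fin (2 * g)) (Fin (2 * g)) (ZMod p))) := by ring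
    _ ≤ _ := mul_le_mul_of_nonneg_left h3 (Nat.cast_nonneg _)
    _ ≤ _ := h5

/-- the proportion of the classes of prime power period -/
theorem power_case (hN : S_NOROOT) (hMu : S_MULT) (hC : S_CYC) (hL : S_LAST) (hSi : S_SIMPLE)
    {k K : Type u} [Field k] [IsAlgClosed k] [Field K] [Algebra k K] (p m : ℕ) [hp : Fact p.Prime] (hm : 0 < m)
    (ζ : K) (hζ : IsPrimitiveRoot ζ (p ^ m)) (g : ℕ) (hg : 0 < g) (z : Fin (2 * g) → Kˣ)
    (θ : Fin (2 * g) → Fin (2 * g) → BrauerGroup.{u, u} K) (hθ : ∀ u v, IsSym (p ^ m) ζ (z u) (z v) (θ u v))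
    (w : Fin (2 * g) → Fin (2 * g) → ℤ) (hw : ∏ u, ∏ v, θ u v ^ w u v = 1)
    (hdet : ¬ (p : ℤ) ∣ (dif w).det)
    (S : Subgroup (BrauerGroup.{u, u} K)) (hS : S = Subgroup.closure {γ | ∃ u v, γ = θ u v}) :
    Finite S ∧ cyc p g * (rho p g - 1 / p) * Nat.card S ≤
      Nat.card {α : S // IndDvd (α : BrauerGroup.{u, u} K) ((p ^ m) ^ (g - 1)) ∧
            ∃ (s t : Fin (g - 1) → Kˣ) (σ : Fin (g - 1) → BrauerGroup.{u, u} K),
              (∀ i, IsSym (p ^ m) ζ (s i) (t i) (σ i)) ∧ (α : BrauerGroup.{u, u} K) = ∏ i, σ i} := by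
  classical
  haveI : NeZero p := ⟨hp.out.ne_zero⟩
  set E := red p (dif w) with hE
  let X : Matrix (Fin (2 * g)) (Fin (2 * g)) (ZMod p) → Prop := fun w' => ∃ x : ZMod p,
    ∃ a b : Fin (2 * g) → ZMod p, (w' - w'ᵀ - x • E) *ᵥ a = 0 ∧ (w' - w'ᵀ - x • E) *ᵥ b = 0 ∧
      a ⬝ᵥ (E *ᵥ b) ≠ 0 ∧ ∀ v, (w' - w'ᵀ - x • E) *ᵥ v = 0 → ∃ s t : ZMod p, v = s • a + t • b
  obtain ⟨h1, h2⟩ := count_pow (k := k) p m hm ζ hζ g z θ hθ (rels w) (rels_one θ w hw) X (by
    rintro w' ⟨x, a, b, ha, hb, hab, hker⟩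
    have e1 : ((-(x.val : ℤ) : ℤ) : ZMod p) = -x := by
      push_cast
      simp
    have e2 : al w' + red p (dif fun u v => (-(x.val : ℤ)) * w u v) = w' - w'ᵀ - x • E := by
      rw [red_smul, e1, neg_smul, ← sub_eq_add_neg]
    refine ⟨fun u v => (-(x.val : ℤ)) * w u v, ⟨-(x.val : ℤ), rfl⟩, w, ⟨1, by funext u v; ring⟩, a, b,
      indep_of (altn_red p w) a b hab, ?_, ?_, ?_, hab⟩
    · rw [e2]; exact ha
    · rw [e2]; exact hb
    · rw [e2]; exact hker) S hS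
  refine ⟨h1, ?_⟩
  have hc : Fintype.card (ZMod p) = p := ZMod.card p
  by_cases hr0 : 0 ≤ rho p g - 1 / p
  swap
  · push Not at hr0
    refine le_trans ?_ (Nat.cast_nonneg _)
    exact mul_nonpos_of_nonpos_of_nonneg
      (mul_nonpos_of_nonneg_of_nonpos (cyc_nonneg p g hp.out.one_lt.le) hr0.le) (Nat.cast_nonneg _)
  have h3 := count (F := ZMod p) hC hL E g (altn_red p w) (isUnit_det w hdet) (by simp) hg _ (e_ne hg)
    {c : Fin g → ZMod p | ∃ x, Root c x ∧ ¬ Der c x} (rho p g - 1 / p)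
    (by have := card_simple (F := ZMod p) hN hMu g hg; rw [hc] at this ⊢; exact this) hr0
    X (by
      rintro w' hcyc ⟨c, ⟨x, hx, hd⟩, hch⟩
      exact ⟨x, hSi (ZMod p) (Fin (2 * g)) E _ g w' c x (altn_red p w) (isUnit_det w hdet) (by simp) hg hcyc
        hch hx hd⟩)
  rw [hc] at h3
  have hM : (0 : ℝ) < Nat.card (Matrix (Fin (2 * g)) (Fin (2 * g)) (ZMod p)) := by
    exact_mod_cast Nat.card_pos
  have h5 : (Nat.card S : ℝ) * Nat.card {w' : Matrix (Fin (2 * g)) (Fin (2 * g)) (ZMod p) // X w'} ≤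
      Nat.card (Matrix (Fin (2 * g)) (Fin (2 * g)) (ZMod p)) *
        Nat.card {α : S // IndDvd (α : BrauerGroup.{u, u} K) ((p ^ m) ^ (g - 1)) ∧
            ∃ (s t : Fin (g - 1) → Kˣ) (σ : Fin (g - 1) → BrauerGroup.{u, u} K),
              (∀ i, IsSym (p ^ m) ζ (s i) (t i) (σ i)) ∧ (α : BrauerGroup.{u, u} K) = ∏ i, σ i} := by
    rw [← Nat.card_eq_fintype_card] at h2
    exact_mod_cast h2
  refine le_of_mul_le_mul_left ?_ hM
  calc (Nat.card (Matrix (Fin (2 * g)) (Fin (2 * g)) (ZMod p)) : ℝ) * (cyc p g * (rho p g - 1 / p) * Nat.card S)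
      = Nat.card S * (cyc p g * (rho p g - 1 / p) *
          Nat.card (Matrix (Fin (2 * g)) (Fin (2 * g)) (ZMod p))) := by ring
    _ ≤ _ := mul_le_mul_of_nonneg_left h3 (Nat.cast_nonneg _)
    _ ≤ _ := h5

end

end Pool.Agent.H47.PF.Lk
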