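import Mathlib

/-!
# Project PF (MP_43d240_ag): cyclic vectors and the Pfaffian characteristic polynomial

`F` is a finite field with `q` elements, `E` an alternating matrix of size `2 g` with `det E ≠ 0`. For a matrix
`w` let `A = w - wᵀ` (alternating), `M = E⁻¹ A`, `v_i = M ^ i e` (`chain`). The vectors `v_i` are pairwise
`E`-orthogonal, and the next vector `v_{i+1}` is uniformly distributed in the `E`-orthogonal complement of the
previous ones. So the coefficients of the Pfaffian characteristic polynomial are uniformly distributed on the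
matrices for which `v_0, …, v_{g-1}` are linearly independent.
-/

set_option autoImplicit false

namespace Pool.Agent.H47.PF

open Matrix Polynomial

/-- an alternating matrix -/
def Altn {R I : Type} [CommRing R] (b : Matrix I I R) : Prop := (∀ u, b u u = 0) ∧ ∀ u v, b u v = -b v u

section

variable {F : Type} [Field F] {I : Type} [Fintype I] [DecidableEq I]

/-- the vectors `v_i = (E⁻¹ (w - wᵀ)) ^ i e` -/
noncomputable def chain (E : Matrix I I F) (e : I → F) (w : Matrix I I F) (i : ℕ) : I → F :=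
  ((E⁻¹ * (w - wᵀ)) ^ i) *ᵥ e

/-- `v_0, …, v_{i-1}` are linearly independent -/
def Cyc (E : Matrix I I F) (e : I → F) (i : ℕ) (w : Matrix I I F) : Prop :=
  LinearIndependent F (fun j : Fin i => chain E e w j)

end

/-- ISO. The vectors of the chain are pairwise `E`-orthogonal. Proof: with `A = w - wᵀ`, `M = E⁻¹ A`:
`Mᵀ = A E⁻¹` (as `Aᵀ = -A`, `(E⁻¹)ᵀ = -E⁻¹`), so `Mᵀ E = A = E M` and `v_iᵀ E v_j = eᵀ E M ^ (i+j) e`. If
`i + j = 2 m` this is `xᵀ E x = 0` with `x = M ^ m e`; if `i + j = 2 m + 1` it is `xᵀ A x = 0`. (`xᵀ B x = 0` for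
alternating `B`, also in characteristic two.) -/
def S_ISO : Prop := ∀ (F : Type) [Field F] (I : Type) [Fintype I] [DecidableEq I] (E : Matrix I I F)
  (e : I → F) (w : Matrix I I F), Altn E → IsUnit E.det →
  ∀ i j : ℕ, chain E e w i ⬝ᵥ (E *ᵥ chain E e w j) = 0

/-- UNI. Translations. Let `u_0, …, u_i` be linearly independent and `d` with `u_j ⬝ᵥ d = 0` for all `j ≤ i`. The
numbers of the matrices `w` with `(w - wᵀ) u_j = b_j` for `j < i` and `(w - wᵀ) u_i = y`, resp. `= y + d`, are the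
same. Proof: choose `c` with `c ⬝ᵥ u_j = 0` (`j < i`) and `c ⬝ᵥ u_i = 1` (independence; e.g. a linear functional on
`I → F`, `LinearIndependent` extends to a basis, `dotProduct` represents every functional); the bijection is
`w ↦ w + vecMulVec d c` : `(d cᵀ - c dᵀ) u_j = (c ⬝ u_j) d - (d ⬝ u_j) c`. -/
def S_UNI : Prop := ∀ (F : Type) [Field F] [Finite F] (I : Type) [Fintype I] [DecidableEq I] (i : ℕ)
  (u : Fin (i + 1) → I → F) (b : Fin i → I → F) (y d : I → F), LinearIndependent F u →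
  (∀ j, u j ⬝ᵥ d = 0) →
  Nat.card {w : Matrix I I F // (∀ j : Fin i, (w - wᵀ) *ᵥ u j.castSucc = b j) ∧
      (w - wᵀ) *ᵥ u (Fin.last i) = y} =
    Nat.card {w : Matrix I I F // (∀ j : Fin i, (w - wᵀ) *ᵥ u j.castSucc = b j) ∧
      (w - wᵀ) *ᵥ u (Fin.last i) = y + d}

/-- FIB (from UNI). For linearly independent `τ_0, …, τ_i` and `u`, `u'` both `E`-orthogonal to all `τ_j`
(`τ j ⬝ᵥ E *ᵥ u = 0`), the numbers of the `w` with `v_j = τ_j` (`j ≤ i`) and `v_{i+1} = u`, resp. `v_{i+1} = u'`,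
are the same. Proof: `v_{j+1} = E⁻¹ (w - wᵀ) v_j`; so `v_j = τ_j` for `j ≤ i` and `v_{i+1} = u` means `e = τ_0` and
`(w - wᵀ) τ_j = E τ_{j+1}` for `j < i`, `(w - wᵀ) τ_i = E u` (if `e ≠ τ_0` both numbers are zero). Apply UNI with
`y = E u`, `d = E u' - E u`. -/
def S_FIB : Prop := ∀ (F : Type) [Field F] [Finite F] (I : Type) [Fintype I] [DecidableEq I]
  (E : Matrix I I F) (e : I → F), IsUnit E.det → ∀ (i : ℕ) (τ : Fin (i + 1) → I → F) (u u' : I → F),
  LinearIndependent F τ → (∀ j, τ j ⬝ᵥ (E *ᵥ u) = 0) → (∀ j, τ j ⬝ᵥ (E *ᵥ u') = 0) →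
  Nat.card {w : Matrix I I F // (∀ j : Fin (i + 1), chain E e w j = τ j) ∧ chain E e w (i + 1) = u} =
    Nat.card {w : Matrix I I F // (∀ j : Fin (i + 1), chain E e w j = τ j) ∧ chain E e w (i + 1) = u'}

/-- DIM. The space of the vectors `E`-orthogonal to `i ≤ 2 g` linearly independent vectors has dimension
`2 g - i`. -/
def S_DIM : Prop := ∀ (F : Type) [Field F] [Finite F] (I : Type) [Fintype I] [DecidableEq I]
  (E : Matrix I I F), IsUnit E.det → ∀ (i : ℕ) (τ : Fin i → I → F), LinearIndependent F τ →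
  Nat.card {u : I → F // ∀ j, τ j ⬝ᵥ (E *ᵥ u) = 0} = Nat.card F ^ (Fintype.card I - i)

/-- STEP (from ISO, FIB, DIM). For `i + 2 ≤ g`: among the `w` with `v_0, …, v_i` linearly independent, the
proportion `q ^ (i+1) / q ^ (2g-i-1)` has `v_0, …, v_{i+1}` linearly dependent. Proof: divide the `w` according to
`τ = (v_0, …, v_i)`; by ISO `v_{i+1}` is always in the space `Y_τ` of DIM, with `q ^ (2g-i-1)` elements, by FIB
all its values in `Y_τ` are equally frequent, and dependence means that `v_{i+1}` is in the span of `τ`, which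
is contained in `Y_τ` by ISO (if there is at least one such `w`) and has `q ^ (i+1)` elements. (The condition
`i + 2 ≤ g` is not needed if one writes it like this.) -/
def S_STEP : Prop := ∀ (F : Type) [Field F] [Finite F] (I : Type) [Fintype I] [DecidableEq I]
  (E : Matrix I I F) (e : I → F) (g : ℕ), Altn E → IsUnit E.det → Fintype.card I = 2 * g →
  ∀ i : ℕ, i + 2 ≤ g →
  Nat.card F ^ (2 * g - i - 1) * Nat.card {w : Matrix I I F // Cyc E e (i + 1) w ∧ ¬ Cyc E e (i + 2) w} =
    Nat.card F ^ (i + 1) * Nat.card {w : Matrix I I F // Cyc E e (i + 1) w}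

/-- CYC (from STEP). The proportion of the `w` for which `v_0, …, v_{g-1}` are linearly independent is at least
(it is equal to) `∏_{m=1}^{g-1} (1 - q ^ (-2m))`. Proof: by STEP,
`#{Cyc (i+2)} = (1 - q ^ (-2(g-1-i))) #{Cyc (i+1)}` for `i ≤ g - 2`, and `Cyc 1` holds for all `w`, as `e ≠ 0`. -/
def S_CYC : Prop := ∀ (F : Type) [Field F] [Finite F] (I : Type) [Fintype I] [DecidableEq I]
  (E : Matrix I I F) (e : I → F) (g : ℕ), Altn E → IsUnit E.det → Fintype.card I = 2 * g → 1 ≤ g → e ≠ 0 →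
  (∏ m ∈ Finset.range (g - 1), (1 - 1 / (Nat.card F : ℝ) ^ (2 * (m + 1)))) * Nat.card (Matrix I I F) ≤
    Nat.card {w : Matrix I I F // Cyc E e g w}

/-- LAST (from ISO, FIB, DIM). Let `g ≥ 1`. On the `w` with `v_0, …, v_{g-1}` linearly independent the vector
`v_g` is in their span, and its coefficients are uniformly distributed. Proof: divide according to
`τ = (v_0, …, v_{g-1})`; the space `Y_τ` of DIM has dimension `g` and contains the span of `τ` (ISO), so it is the
span of `τ`; FIB. -/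
def S_LAST : Prop := ∀ (F : Type) [Field F] [Finite F] (I : Type) [Fintype I] [DecidableEq I]
  (E : Matrix I I F) (e : I → F) (g : ℕ), Altn E → IsUnit E.det → Fintype.card I = 2 * g → 1 ≤ g →
  ∀ P : Set (Fin g → F),
  Nat.card P * Nat.card {w : Matrix I I F // Cyc E e g w} ≤ Nat.card F ^ g *
    Nat.card {w : Matrix I I F // Cyc E e g w ∧
      ∃ c ∈ P, chain E e w g = -∑ j : Fin g, c j • chain E e w j}

/-- ROOT. If `v_0, …, v_{g-1}` are linearly independent, `v_g + ∑ c_j v_j = 0` and `x` is a root of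
`X ^ g + ∑ c_j X ^ j`, then `det (w - wᵀ - x E) = 0`. Proof: `f = X ^ g + ∑ c_j X ^ j = (X - x) h`, `h` monic of
degree `g - 1`; `u = h(M) e ≠ 0` by independence, and `(M - x) u = f(M) e = 0`, so
`(w - wᵀ - x E) u = E (M - x) u = 0`. -/
def S_ROOT : Prop := ∀ (F : Type) [Field F] (I : Type) [Fintype I] [DecidableEq I]
  (E : Matrix I I F) (e : I → F) (g : ℕ) (w : Matrix I I F) (c : Fin g → F) (x : F), IsUnit E.det → 1 ≤ g →
  Cyc E e g w → chain E e w g = -∑ j : Fin g, c j • chain E e w j → x ^ g + ∑ j : Fin g, c j * x ^ (j : ℕ) = 0 →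
  (w - wᵀ - x • E).det = 0

/-- SIMPLE (uses ISO). If moreover `x` is a simple root, then the kernel of `w - wᵀ - x E` is two-dimensional
and `E` is not zero on it. Proof: `W = span (v_0, …, v_{g-1})` has dimension `g`, is `M`-stable, `E`-isotropic
(ISO) and so equal to its orthogonal complement; `M` on `W` is cyclic with characteristic polynomial `f`. Let
`a = h(M) e` as in ROOT; `ker (M - x)` on `W` is spanned by `a`, and `W = F a ⊕ (M - x) W` since `x` is a simple
root (`h(x) ≠ 0`: `h(M) e = a`, `h(M) a = h(x) a`; if `a = (M-x) w'` then `h(x) a = h(M) (M - x) w' = f(M) w' = 0`).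
The kernel `K` of `M - x` on the whole space: for `b ∈ K` the functional `E(·, b)` on `W` vanishes on `(M - x) W`
(`E((M-x)w', b) = E(w', (M-x)b) = 0`), so it is determined by `E(a, b)`; hence
`K / (K ∩ W) = K / F a` has dimension at most one (the map `b ↦ E(a, b)` on `K` has kernel `K ∩ W^⊥ = K ∩ W`), and
`dim K` is even (it is `2 g` minus the rank of an alternating matrix) and positive, so it is 2 and `E(a, b) ≠ 0`
for `b ∈ K`, `b ∉ W`. (Instead of the evenness of the rank: `dim ker (M - x) = dim ker (M - x)ᵀ`, or: the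
functional `φ` on `W` with `φ(a) = 1`, `φ((M-x)W) = 0` is `E(·, b₀)` for some `b₀`, and then `(M - x) b₀ ∈ W^⊥ = W`;
write `(M - x) b₀ = s a + (M - x) w'`, so `b = b₀ - w'` has `(M - x) b = s a`, and
`s E(a, b) = E(s a, b) = E((M-x) b, b) = 0` since `E (M - x)` is alternating, so `s = 0`.) -/
def S_SIMPLE : Prop := ∀ (F : Type) [Field F] (I : Type) [Fintype I] [DecidableEq I]
  (E : Matrix I I F) (e : I → F) (g : ℕ) (w : Matrix I I F) (c : Fin g → F) (x : F), Altn E → IsUnit E.det →
  Fintype.card I = 2 * g → 1 ≤ g →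
  Cyc E e g w → chain E e w g = -∑ j : Fin g, c j • chain E e w j → x ^ g + ∑ j : Fin g, c j * x ^ (j : ℕ) = 0 →
  (g : F) * x ^ (g - 1) + ∑ j : Fin g, (j : ℕ) * c j * x ^ ((j : ℕ) - 1) ≠ 0 →
  ∃ a b : I → F, (w - wᵀ - x • E) *ᵥ a = 0 ∧ (w - wᵀ - x • E) *ᵥ b = 0 ∧ a ⬝ᵥ (E *ᵥ b) ≠ 0 ∧
    ∀ v : I → F, (w - wᵀ - x • E) *ᵥ v = 0 → ∃ s t : F, v = s • a + t • b

/-- NOROOT. The number of the monic polynomials `X ^ g + ∑ c_j X ^ j` without zeros in `F`. Proof: inclusion
and exclusion; for a set `X` of `k ≤ g` elements of `F` the number of the polynomials which vanish on `X` is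
`q ^ (g-k)` (divisible by `∏ (X - x)`; or: the evaluation at `k ≤ g` points is surjective, Vandermonde), and
`0` if `k > g`. -/
def S_NOROOT : Prop := ∀ (F : Type) [Field F] [Fintype F] (g : ℕ),
  (Nat.card {c : Fin g → F // ∀ x : F, x ^ g + ∑ j : Fin g, c j * x ^ (j : ℕ) ≠ 0} : ℤ) =
    ∑ k ∈ Finset.range (g + 1), (-1) ^ k * (Fintype.card F).choose k * (Fintype.card F : ℤ) ^ (g - k)

/-- MULT. At most `q ^ (g-1)` monic polynomials of degree `g ≥ 1` have a multiple zero in `F`. Proof: for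
`g ≥ 2` and each `x` the two conditions are linear in `c`, and `c ↦ (value at x, derivative at x)` is
surjective onto `F²` (look at `c_0`, `c_1`), so there are `q ^ (g-2)`; for `g = 1` the derivative is `1`. -/
def S_MULT : Prop := ∀ (F : Type) [Field F] [Fintype F] (g : ℕ), 1 ≤ g →
  Nat.card {c : Fin g → F // ∃ x : F, x ^ g + ∑ j : Fin g, c j * x ^ (j : ℕ) = 0 ∧
    (g : F) * x ^ (g - 1) + ∑ j : Fin g, (j : ℕ) * c j * x ^ ((j : ℕ) - 1) = 0} ≤ Fintype.card F ^ (g - 1)

/-- LIM. The limit of the bound. (`C(q, k) / q ^ k → 1 / k!`.) -/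
def S_LIM : Prop := ∀ g : ℕ, Filter.Tendsto (fun q : ℕ =>
    (∏ m ∈ Finset.range (g - 1), (1 - 1 / (q : ℝ) ^ (2 * (m + 1)))) *
      (1 - ∑ k ∈ Finset.range (g + 1), (-1) ^ k * (q.choose k : ℝ) / (q : ℝ) ^ k - 1 / q))
  Filter.atTop (nhds (1 - ∑ k ∈ Finset.range (g + 1), (-1) ^ k / (k.factorial : ℝ)))

/-- PRIMES. For every integral polynomial `D` of positive degree there are infinitely many primes `p` such that
for every `m` some value `D(x) ≠ 0` is divisible by `p ^ m`. Proof: let `h` be an irreducible primitive factor of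
`D` of positive degree; `h` and `h'` are coprime over `ℚ`, so `a h + b h' = c` with an integer `c ≠ 0` and integral
`a`, `b`. Infinitely many primes divide values of `h` (Schur: if only `p_1, …, p_r` do, take `x₀` with
`h(x₀) = N ≠ 0` and look at `h(x₀ + N p_1 ⋯ p_r t) = N (1 + p_1 ⋯ p_r (…))`, large for large `t`); take such a
prime `p` not dividing `c`; then `h'(x) ≢ 0`, so by Hensel's lemma (e.g. step by step) `p ^ m ∣ h(x_m)` for some
integer `x_m`, also for all `x_m + p ^ m t`, and finitely many of these are zeros of `D`. -/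
def S_PRIMES : Prop := ∀ D : ℤ[X], 0 < D.natDegree →
  {p : ℕ | p.Prime ∧ ∀ m : ℕ, ∃ x : ℤ, (p : ℤ) ^ m ∣ D.eval x ∧ D.eval x ≠ 0}.Infinite

/-- CHEB. Second moment. Let `S` be a finite set of primes, `ι` a finite set and for each `p ∈ S` let `G p` be a set
of vectors modulo `p` with at least `c p ^ |ι|` elements. Let `N = ∏ p`. At most `N ^ |ι| / (4 ε² |S|)` of the
integral vectors with entries in `[0, N)` have fewer than `(c - ε) |S|` primes `p ∈ S` with reduction in `G p`.
Proof: replace `G p` by its indicator function minus its mean `c_p ≥ c`; by the Chinese remainder theorem the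
reductions modulo different primes are independent (the map `[0, N) ^ ι → ∏_p (ZMod p) ^ ι` is bijective), so the
sum over all vectors of `(∑_p (1_{G p} - c_p))²` is `N ^ |ι| ∑_p c_p (1 - c_p) ≤ N ^ |ι| |S| / 4`; Chebyshev. -/
def S_CHEB : Prop := ∀ (S : Finset ℕ) (ι : Type) [Fintype ι] (G : ∀ p : ℕ, Set (ι → ZMod p)) (c ε : ℝ), 0 < ε →
  (∀ p ∈ S, p.Prime) → (∀ p ∈ S, c * (p : ℝ) ^ Fintype.card ι ≤ Nat.card (G p)) →
  (Nat.card {a : ι → Fin (∏ p ∈ S, p) //
      (Nat.card {p : ℕ // p ∈ S ∧ (fun i => ((a i : ℕ) : ZMod p)) ∈ G p} : ℝ) < (c - ε) * S.card} : ℝ) *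
    (4 * ε ^ 2 * S.card) ≤ (∏ p ∈ S, (p : ℝ)) ^ Fintype.card ι

end Pool.Agent.H47.PF
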